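import Mathlib
import Pool.Agent.Helper827.Chr.Core
set_option autoImplicit false

namespace Pool.Agent.Results.MP_e243c1_co.QuadraticExponent

open Finset Chr827

/-- a family of graphs on `[n]` is `t`-chromatic-intersecting: the intersection of any two members
(possibly equal) has chromatic number at least `t` -/
def ChromaticIntersecting (t n : ℕ) (F : Finset (SimpleGraph (Fin n))) : Prop :=
  ∀ G ∈ F, ∀ H ∈ F, (t : ℕ∞) ≤ (G ⊓ H).chromaticNumber

open Classical in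
/-- the 0/1 vector of a graph -/
noncomputable def code {n : ℕ} (G : SimpleGraph (Fin n)) : Ed n → Bool := fun p => decide (G.Adj p.1.1 p.1.2)

lemma code_iff {n : ℕ} (G : SimpleGraph (Fin n)) (p : Ed n) : code G p = true ↔ G.Adj p.1.1 p.1.2 := by
  unfold code; simp

lemma code_injective {n : ℕ} : Function.Injective (code : SimpleGraph (Fin n) → Ed n → Bool) := by
  intro G H h
  ext a b
  rcases lt_trichotomy a b with hab | hab | hab
  · have := congrFun h ⟨(a, b), hab⟩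
    rw [← code_iff G ⟨(a, b), hab⟩, this, code_iff H ⟨(a, b), hab⟩]
  · subst hab; simp
  · have := congrFun h ⟨(b, a), hab⟩
    rw [G.adj_comm, H.adj_comm, ← code_iff G ⟨(b, a), hab⟩, this, code_iff H ⟨(b, a), hab⟩]

lemma le_rho {n t : ℕ} {G H : SimpleGraph (Fin n)} (h : (t : ℕ∞) ≤ (G ⊓ H).chromaticNumber) :
    t ≤ rho (inter (code G) (code H)) + 1 := by
  obtain ⟨f, hf⟩ := rho_spec (inter (code G) (code H))
  have hcol : (G ⊓ H).Colorable (rho (inter (code G) (code H)) + 1) := by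
    refine ⟨SimpleGraph.Coloring.mk f ?_⟩
    intro a b hab
    rw [SimpleGraph.inf_adj] at hab
    rcases lt_trichotomy a b with h1 | h1 | h1
    · apply hf ⟨(a, b), h1⟩
      simp only [inter, Bool.and_eq_true]
      exact ⟨(code_iff G _).2 hab.1, (code_iff H _).2 hab.2⟩
    · subst h1; exact absurd hab.1 (G.irrefl)
    · apply Ne.symm
      apply hf ⟨(b, a), h1⟩
      simp only [inter, Bool.and_eq_true]
      exact ⟨(code_iff G _).2 hab.1.symm, (code_iff H _).2 hab.2.symm⟩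
  have := h.trans hcol.chromaticNumber_le
  exact_mod_cast this

lemma card_Ed (n : ℕ) : Fintype.card (Ed n) = n.choose 2 := by
  rw [Fintype.card_subtype]
  have h1 : (univ.filter fun p : Fin n × Fin n => p.1 < p.2).card = ∑ b : Fin n, (b : ℕ) := by
    rw [Finset.card_eq_sum_card_fiberwise (f := fun p : Fin n × Fin n => p.2) (t := univ)
      (fun _ _ => Finset.mem_coe.2 (mem_univ _))]
    apply Finset.sum_congr rfl
    intro b _
    have : ((univ.filter fun p : Fin n × Fin n => p.1 < p.2).filter fun p => p.2 = b) =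
        (Finset.Iio b).image (fun a => (a, b)) := by
      ext ⟨x, y⟩
      simp only [Finset.mem_filter, Finset.mem_univ, true_and, Finset.mem_image, Finset.mem_Iio,
        Prod.mk.injEq]
      constructor
      · rintro ⟨h1, rfl⟩; exact ⟨x, h1, rfl, rfl⟩
      · rintro ⟨a, h1, rfl, rfl⟩; exact ⟨h1, rfl⟩
    rw [this, Finset.card_image_of_injective _ (fun a a' h => (Prod.mk.inj h).1), Fin.card_Iio]
  rw [h1, Fin.sum_univ_eq_sum_range (fun i => i) n, Finset.sum_range_id, Nat.choose_two_right]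

/-- the inequality with a parameter `K` -/
theorem bound (n t : ℕ) (F : Finset (SimpleGraph (Fin n))) (hF : ChromaticIntersecting t n F)
    (hn : 1 ≤ n) (K : ℕ) (hK : 1 ≤ K) :
    F.card ^ 4 * 2 ^ (3 * K * t) ≤ 2 ^ (4 * n.choose 2 + 11 * K ^ 2) := by
  classical
  set F' : Finset (Ed n → Bool) := F.image code with hF'
  have hc : F'.card = F.card := Finset.card_image_of_injective _ code_injective
  have hrho : ∀ x ∈ F', ∀ y ∈ F', t - 1 ≤ rho (inter x y) := by
    intro x hx y hy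
    obtain ⟨G, hG, rfl⟩ := Finset.mem_image.1 hx
    obtain ⟨H, hH, rfl⟩ := Finset.mem_image.1 hy
    have := le_rho (hF G hG H hH)
    omega
  have hmain := main hn hK F' F' hrho
  rw [m_ind, hc, card_Ed] at hmain
  set θ : ℝ := (4:ℝ) ^ (3/4 : ℝ) with hθ
  have hθ0 : 0 < θ := by positivity
  have hθ2 : θ ^ 2 = 8 := by
    rw [hθ, ← Real.rpow_natCast, ← Real.rpow_mul (by norm_num)]
    have : (3/4 : ℝ) * ((2:ℕ):ℝ) = 1 + 1/2 := by norm_num
    rw [this, Real.rpow_add (by norm_num), Real.rpow_one, ← Real.sqrt_eq_rpow,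
      show (4:ℝ) = 2 ^ 2 by norm_num, Real.sqrt_sq (by norm_num)]
    norm_num
  set C : ℕ := n.choose 2 with hC
  set c : ℝ := (F.card : ℝ) with hcd
  have hc0 : 0 ≤ c := Nat.cast_nonneg _
  have h1 : (c / 2 ^ C) ^ 4 ≤ ((16 ^ K * (θ ^ K * (θ ^ (t - 1 + 1))⁻¹)) ^ K) ^ 2 := by
    have h0 : 0 ≤ c / 2 ^ C * (c / 2 ^ C) := by positivity
    calc (c / 2 ^ C) ^ 4 = (c / 2 ^ C * (c / 2 ^ C)) ^ 2 := by ring
      _ ≤ _ := pow_le_pow_left₀ h0 hmain 2
  have h2 : ((16 ^ K * (θ ^ K * (θ ^ (t - 1 + 1))⁻¹)) ^ K) ^ 2 =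
      ((2:ℝ) ^ (11 * K ^ 2)) * ((2:ℝ) ^ (3 * K * (t - 1 + 1)))⁻¹ := by
    have e1 : ((16 ^ K * (θ ^ K * (θ ^ (t - 1 + 1))⁻¹)) ^ K) ^ 2 =
        ((16 ^ 2) ^ K * ((θ ^ 2) ^ K * ((θ ^ 2) ^ (t - 1 + 1))⁻¹)) ^ K := by
      have : (((16:ℝ) ^ 2) ^ K * ((θ ^ 2) ^ K * ((θ ^ 2) ^ (t - 1 + 1))⁻¹)) =
          (16 ^ K * (θ ^ K * (θ ^ (t - 1 + 1))⁻¹)) ^ 2 := by
        rw [mul_pow, mul_pow, inv_pow, ← pow_mul, ← pow_mul, ← pow_mul, ← pow_mul, ← pow_mul,
          ← pow_mul, mul_comm 2 K, mul_comm 2 (t - 1 + 1)]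
      rw [this, ← pow_mul, ← pow_mul, mul_comm K 2]
    rw [e1, hθ2, show (16:ℝ) ^ 2 = 2 ^ 8 by norm_num, show (8:ℝ) = 2 ^ 3 by norm_num, ← pow_mul,
      ← pow_mul, ← pow_mul, ← mul_assoc, ← pow_add, mul_pow, inv_pow, ← pow_mul, ← pow_mul]
    congr 2
    · ring
    · ring
  rw [h2, div_pow, div_le_iff₀ (by positivity)] at h1
  have h3 : c ^ 4 * 2 ^ (3 * K * (t - 1 + 1)) ≤ 2 ^ (11 * K ^ 2) * (2 ^ C) ^ 4 := by
    have hp : (0:ℝ) < 2 ^ (3 * K * (t - 1 + 1)) := by positivity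
    calc c ^ 4 * 2 ^ (3 * K * (t - 1 + 1))
        ≤ (2 ^ (11 * K ^ 2) * (2 ^ (3 * K * (t - 1 + 1)))⁻¹ * (2 ^ C) ^ 4) * 2 ^ (3 * K * (t - 1 + 1)) :=
          mul_le_mul_of_nonneg_right h1 hp.le
      _ = 2 ^ (11 * K ^ 2) * (2 ^ C) ^ 4 := by field_simp
  have h4 : (F.card : ℝ) ^ 4 * 2 ^ (3 * K * t) ≤ 2 ^ (4 * C + 11 * K ^ 2) := by
    have h5 : (2:ℝ) ^ (3 * K * t) ≤ 2 ^ (3 * K * (t - 1 + 1)) :=
      pow_le_pow_right₀ (by norm_num) (Nat.mul_le_mul_left _ (by omega))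
    calc (F.card : ℝ) ^ 4 * 2 ^ (3 * K * t) ≤ c ^ 4 * 2 ^ (3 * K * (t - 1 + 1)) :=
          mul_le_mul_of_nonneg_left h5 (by positivity)
      _ ≤ 2 ^ (11 * K ^ 2) * (2 ^ C) ^ 4 := h3
      _ = 2 ^ (4 * C + 11 * K ^ 2) := by rw [← pow_mul, ← pow_add]; congr 1; ring
  exact_mod_cast h4

/-- the linear bound -/
theorem bound_lin (n t : ℕ) (F : Finset (SimpleGraph (Fin n))) (hF : ChromaticIntersecting t n F)
    (hn : 1 ≤ n) : F.card * 2 ^ (t - 1) ≤ 2 ^ (n.choose 2) := by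
  classical
  set F' : Finset (Ed n → Bool) := F.image code with hF'
  have hc : F'.card = F.card := Finset.card_image_of_injective _ code_injective
  have hrho : ∀ x ∈ F', ∀ y ∈ F', t - 1 ≤ rho (inter x y) := by
    intro x hx y hy
    obtain ⟨G, hG, rfl⟩ := Finset.mem_image.1 hx
    obtain ⟨H, hH, rfl⟩ := Finset.mem_image.1 hy
    have := le_rho (hF G hG H hH)
    omega
  have h := fb hn F' F' hrho
  rw [m_ind, hc, card_Ed] at h
  have h1 : ((F.card : ℝ) / 2 ^ (n.choose 2)) * ((F.card : ℝ) / 2 ^ (n.choose 2)) =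
      ((F.card : ℝ) / 2 ^ (n.choose 2)) ^ 2 := by ring
  have h2 : ((1/4 : ℝ)) ^ (t - 1) = ((1/2) ^ (t - 1)) ^ 2 := by
    rw [← pow_mul, mul_comm, pow_mul]; norm_num
  rw [h1, h2] at h
  have h3 := (pow_le_pow_iff_left₀ (by positivity) (by positivity) (by norm_num)).1 h
  rw [div_le_iff₀ (by positivity), one_div, inv_pow, ← div_eq_inv_mul, le_div_iff₀ (by positivity)] at h3
  exact_mod_cast h3

theorem result : ∀ (t n : ℕ) (F : Finset (SimpleGraph (Fin n))), ChromaticIntersecting t n F →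
    (∀ K : ℕ, 1 ≤ K → F.card ^ 4 * 2 ^ (3 * K * t) ≤ 2 ^ (4 * n.choose 2 + 11 * K ^ 2)) ∧
      F.card * 2 ^ (t ^ 2 / 20) ≤ 2 ^ (n.choose 2) := by
  intro t n F hF
  rcases Nat.eq_zero_or_pos n with rfl | hn
  · rcases F.eq_empty_or_nonempty with rfl | ⟨G, hG⟩
    · constructor
      · intro K _; simp
      · simp
    · have h0 := hF G hG G hG
      have h1 : (G ⊓ G).chromaticNumber ≤ (0 : ℕ) :=
        SimpleGraph.Colorable.chromaticNumber_le ⟨SimpleGraph.Coloring.mk (fun v => v.elim0)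
          (fun {v} => v.elim0)⟩
      have ht : t = 0 := by
        have h2 : (t : ℕ∞) ≤ ((0:ℕ) : ℕ∞) := h0.trans h1
        have h3 : t ≤ 0 := by exact_mod_cast h2
        omega
      subst ht
      have hc : F.card ≤ 1 := by
        rw [Finset.card_le_one]
        intro a _ b _
        ext v
        exact v.elim0
      constructor
      · intro K _
        calc F.card ^ 4 * 2 ^ (3 * K * 0) ≤ 1 ^ 4 * 2 ^ (3 * K * 0) :=
              Nat.mul_le_mul_right _ (Nat.pow_le_pow_left hc 4)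
          _ = 1 := by simp
          _ ≤ _ := Nat.one_le_two_pow
      · simpa using hc
  · refine ⟨fun K hK => bound n t F hF hn K hK, ?_⟩
    -- a good K gives the quadratic bound
    have good : ∀ K : ℕ, 1 ≤ K → 4 * (t ^ 2 / 20) + 11 * K ^ 2 ≤ 3 * K * t →
        F.card * 2 ^ (t ^ 2 / 20) ≤ 2 ^ (n.choose 2) := by
      intro K hK hle
      have h1 := bound n t F hF hn K hK
      have h2 : F.card ^ 4 * 2 ^ (4 * (t ^ 2 / 20) + 11 * K ^ 2) ≤ 2 ^ (4 * n.choose 2 + 11 * K ^ 2) :=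
        (Nat.mul_le_mul_left _ (Nat.pow_le_pow_right (by norm_num) hle)).trans h1
      rw [pow_add, pow_add, ← mul_assoc] at h2
      have h3 : F.card ^ 4 * 2 ^ (4 * (t ^ 2 / 20)) ≤ 2 ^ (4 * n.choose 2) :=
        Nat.le_of_mul_le_mul_right h2 (by positivity)
      rw [mul_comm 4 (t ^ 2 / 20), mul_comm 4 (n.choose 2), pow_mul, pow_mul, ← mul_pow] at h3
      exact (Nat.pow_le_pow_iff_left (by norm_num)).1 h3
    rcases le_or_gt t 19 with ht | ht
    · have h1 := bound_lin n t F hF hn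
      have h2 : t ^ 2 / 20 ≤ t - 1 := by
        interval_cases t <;> norm_num
      exact (Nat.mul_le_mul_left _ (Nat.pow_le_pow_right (by norm_num) h2)).trans h1
    · rcases le_or_gt t 24 with ht2 | ht2
      · apply good 3 (by norm_num)
        interval_cases t <;> norm_num
      · apply good ((3 * t + 11) / 22) (by omega)
        set K := (3 * t + 11) / 22 with hK
        have h1 : 22 * K ≤ 3 * t + 11 := by omega
        have h2 : 3 * t ≤ 22 * K + 10 := by omega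
        have h3 : t ^ 2 / 20 * 20 ≤ t ^ 2 := Nat.div_mul_le_self _ _
        zify at h1 h2 h3 ht2 ⊢
        nlinarith [mul_nonneg (sub_nonneg.2 h1) (sub_nonneg.2 h2)]

end Pool.Agent.Results.MP_e243c1_co.QuadraticExponent
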